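import Mathlib

namespace Pool.Agent.Results.MP_36f34d_co.FiveThirds

open Finset Module

/-- A tetrahedron: a 4-element set of points that does not lie in a plane. -/
def IsTetrahedron {V : Type} [NormedAddCommGroup V] [NormedSpace ℝ V] (T : Finset V) : Prop :=
  T.card = 4 ∧ ¬ Coplanar ℝ (T : Set V)

/-- `Q` is the image of `T` under a similarity `x ↦ r • g x`, `g` an isometry, `r > 0`. -/
def SimilarTo {V : Type} [NormedAddCommGroup V] [NormedSpace ℝ V] (T Q : Finset V) : Prop :=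
  ∃ (g : V ≃ᵢ V) (r : ℝ), 0 < r ∧ (Q : Set V) = (fun x => r • g x) '' (T : Set V)

/-- `s(P,T)`: the number of 4-element subsets of `P` that are tetrahedra similar to `T`. -/
noncomputable def copies {V : Type} [NormedAddCommGroup V] [NormedSpace ℝ V]
    (P T : Finset V) : ℕ :=
  Set.ncard {Q : Finset V | Q ⊆ P ∧ IsTetrahedron Q ∧ SimilarTo T Q}

/-- `f(n)`: the maximum of `s(P,T)` over `n`-point sets `P` and tetrahedra `T`. -/
noncomputable def f (n : ℕ) : ℕ :=
  sSup {k : ℕ | ∃ P T : Finset (EuclideanSpace ℝ (Fin 3)),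
    P.card = n ∧ IsTetrahedron T ∧ k = copies P T}

/-- Euclidean space. -/
abbrev E3 := EuclideanSpace ℝ (Fin 3)

theorem finite_copies {V : Type} [NormedAddCommGroup V] [NormedSpace ℝ V] (P T : Finset V) :
    {Q : Finset V | Q ⊆ P ∧ IsTetrahedron Q ∧ SimilarTo T Q}.Finite := by
  apply Set.Finite.subset (P.powerset.finite_toSet)
  intro Q hQ
  simpa using hQ.1

theorem copies_le {V : Type} [NormedAddCommGroup V] [NormedSpace ℝ V] (P T : Finset V) :
    copies P T ≤ 2 ^ P.card := by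
  have h : {Q : Finset V | Q ⊆ P ∧ IsTetrahedron Q ∧ SimilarTo T Q} ⊆ (P.powerset : Set _) := by
    intro Q hQ
    simpa using hQ.1
  calc copies P T ≤ Set.ncard (P.powerset : Set (Finset V)) :=
        Set.ncard_le_ncard h (P.powerset.finite_toSet)
    _ = 2 ^ P.card := by rw [Set.ncard_coe_finset, card_powerset]

theorem bdd (n : ℕ) : BddAbove {k : ℕ | ∃ P T : Finset E3,
    P.card = n ∧ IsTetrahedron T ∧ k = copies P T} := by
  refine ⟨2 ^ n, ?_⟩
  rintro k ⟨P, T, hP, -, rfl⟩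
  simpa [hP] using copies_le P T

/-- The embedding of the integer lattice. -/
noncomputable def emb (u : Fin 3 → ℤ) : E3 := WithLp.toLp 2 (fun i => (u i : ℝ))

theorem emb_inj : Function.Injective emb := by
  intro u v h
  funext i
  have := congrArg (fun y : E3 => y i) h
  simpa [emb] using this

/-- The Euler-Rodrigues matrix. -/
def mat {R : Type} [CommRing R] (q : Fin 4 → R) : Matrix (Fin 3) (Fin 3) R :=
  !![q 0 ^ 2 + q 1 ^ 2 - q 2 ^ 2 - q 3 ^ 2, 2 * (q 1 * q 2 - q 0 * q 3),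
      2 * (q 1 * q 3 + q 0 * q 2);
     2 * (q 1 * q 2 + q 0 * q 3), q 0 ^ 2 - q 1 ^ 2 + q 2 ^ 2 - q 3 ^ 2,
      2 * (q 2 * q 3 - q 0 * q 1);
     2 * (q 1 * q 3 - q 0 * q 2), 2 * (q 2 * q 3 + q 0 * q 1),
      q 0 ^ 2 - q 1 ^ 2 - q 2 ^ 2 + q 3 ^ 2]

theorem mat_norm (q : Fin 4 → ℝ) (y : Fin 3 → ℝ) :
    ∑ i, (∑ j, mat q i j * y j) ^ 2 = (∑ k, q k ^ 2) ^ 2 * ∑ i, (y i) ^ 2 := by
  simp only [mat, Fin.sum_univ_three, Fin.sum_univ_four, Matrix.of_apply, Matrix.cons_val',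
    Matrix.cons_val_zero, Matrix.cons_val_one, Matrix.cons_val_fin_one, Matrix.cons_val]
  ring

/-- The rotation attached to a nonzero quaternion. -/
noncomputable def rot (q : Fin 4 → ℝ) (hq : 0 < ∑ k, q k ^ 2) : E3 →ₗᵢ[ℝ] E3 where
  toFun y := WithLp.toLp 2 (fun i => (∑ j, mat q i j * y j) / ∑ k, q k ^ 2)
  map_add' := by
    intro y z
    ext i
    simp only [PiLp.add_apply, mul_add, sum_add_distrib, add_div]
  map_smul' := by
    intro c y
    ext i
    simp only [PiLp.smul_apply, smul_eq_mul, RingHom.id_apply, ← mul_div_assoc, mul_sum]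
    congr 1
    apply sum_congr rfl
    intro j _
    ring
  norm_map' := by
    intro y
    rw [EuclideanSpace.norm_eq, EuclideanSpace.norm_eq]
    congr 1
    simp only [LinearMap.coe_mk, AddHom.coe_mk, Real.norm_eq_abs, sq_abs, div_pow]
    rw [← sum_div, mat_norm q (fun j => y j)]
    field_simp

theorem rot_apply (q : Fin 4 → ℝ) (hq : 0 < ∑ k, q k ^ 2) (y : E3) (i : Fin 3) :
    (rot q hq y) i = (∑ j, mat q i j * y j) / ∑ k, q k ^ 2 := rfl

theorem mat_cast (q : Fin 4 → ℤ) (i j : Fin 3) :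
    ((mat q i j : ℤ) : ℝ) = mat (fun k => (q k : ℝ)) i j := by
  fin_cases i <;> fin_cases j <;> simp [mat]

/-- The images of the lattice pattern. -/
def pt (t : Fin 4 → Fin 3 → ℤ) (x : Fin 3 → ℤ) (q : Fin 4 → ℤ) (i : Fin 4) : Fin 3 → ℤ :=
  fun j => x j + ∑ l, mat q j l * t i l

/-- The similarity. -/
noncomputable def aff (x : Fin 3 → ℤ) (q : Fin 4 → ℤ) : E3 →ᵃ[ℝ] E3 where
  toFun y := WithLp.toLp 2 (fun j => (x j : ℝ) + ∑ l, mat (fun k => (q k : ℝ)) j l * y l)
  linear :=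
    { toFun := fun y => WithLp.toLp 2 (fun j => ∑ l, mat (fun k => (q k : ℝ)) j l * y l)
      map_add' := by
        intro y z
        ext i
        simp only [PiLp.add_apply, mul_add, sum_add_distrib]
      map_smul' := by
        intro c y
        ext i
        simp only [PiLp.smul_apply, smul_eq_mul, RingHom.id_apply, mul_sum]
        apply sum_congr rfl
        intro j _
        ring }
  map_vadd' := by
    intro p v
    ext i
    simp only [vadd_eq_add, PiLp.add_apply, mul_add, sum_add_distrib, LinearMap.coe_mk,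
      AddHom.coe_mk]
    ring

theorem aff_apply (x : Fin 3 → ℤ) (q : Fin 4 → ℤ) (y : E3) (j : Fin 3) :
    (aff x q y) j = (x j : ℝ) + ∑ l, mat (fun k => (q k : ℝ)) j l * y l := rfl

theorem aff_emb (t : Fin 4 → Fin 3 → ℤ) (x : Fin 3 → ℤ) (q : Fin 4 → ℤ) (i : Fin 4) :
    aff x q (emb (t i)) = emb (pt t x q i) := by
  ext j
  rw [aff_apply]
  simp only [emb, pt, Int.cast_add, Int.cast_sum, Int.cast_mul, mat_cast]

theorem aff_sim (x : Fin 3 → ℤ) (q : Fin 4 → ℤ) (hq : 0 < ∑ k, (q k : ℝ) ^ 2) :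
    ∃ (g : E3 ≃ᵢ E3), ∀ y, aff x q y = (∑ k, (q k : ℝ) ^ 2) • g y := by
  set N : ℝ := ∑ k, (q k : ℝ) ^ 2 with hN
  let A : E3 ≃ₗᵢ[ℝ] E3 := (rot (fun k => (q k : ℝ)) hq).toLinearIsometryEquiv rfl
  refine ⟨A.toIsometryEquiv.trans (IsometryEquiv.addLeft (N⁻¹ • emb x)), ?_⟩
  intro y
  ext j
  have hA : (A y) j = (∑ l, mat (fun k => (q k : ℝ)) j l * y l) / N :=
    rot_apply (fun k => (q k : ℝ)) hq y j
  rw [aff_apply]
  simp only [IsometryEquiv.trans_apply, LinearIsometryEquiv.coe_toIsometryEquiv,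
    IsometryEquiv.addLeft_apply, PiLp.smul_apply, PiLp.add_apply, smul_eq_mul, hA]
  have : (emb x) j = (x j : ℝ) := rfl
  rw [this]
  field_simp

theorem aff_injective (x : Fin 3 → ℤ) (q : Fin 4 → ℤ) (hq : 0 < ∑ k, (q k : ℝ) ^ 2) :
    Function.Injective (aff x q) := by
  obtain ⟨g, hg⟩ := aff_sim x q hq
  intro y z h
  rw [hg, hg] at h
  exact g.injective (smul_right_injective E3 hq.ne' h)

theorem pt_inj (t : Fin 4 → Fin 3 → ℤ) (ht : AffineIndependent ℝ (fun i => emb (t i)))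
    (x x' : Fin 3 → ℤ) (q q' : Fin 4 → ℤ) (hq : ∀ k, 0 < q k) (hq' : ∀ k, 0 < q' k)
    (h : pt t x q = pt t x' q') : x = x' ∧ q = q' := by
  have hspan : affineSpan ℝ (Set.range (fun i => emb (t i))) = ⊤ := by
    rw [ht.affineSpan_eq_top_iff_card_eq_finrank_add_one]
    simp
  have heq : aff x q = aff x' q' := by
    apply AffineMap.ext_on hspan
    rintro _ ⟨i, rfl⟩
    show aff x q (emb (t i)) = aff x' q' (emb (t i))
    rw [aff_emb, aff_emb, h]
  have hx : x = x' := by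
    funext j
    have := congrArg (fun F : E3 →ᵃ[ℝ] E3 => (F 0) j) heq
    simp only [aff_apply] at this
    simpa using this
  refine ⟨hx, ?_⟩
  subst hx
  have hm : ∀ i j, mat q i j = mat q' i j := by
    intro i j
    have := congrArg (fun F : E3 →ᵃ[ℝ] E3 => (F (EuclideanSpace.single j 1)) i) heq
    simp only [aff_apply] at this
    have h2 : mat (fun k => (q k : ℝ)) i j = mat (fun k => (q' k : ℝ)) i j := by
      simpa using this
    rw [← mat_cast, ← mat_cast] at h2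
    exact_mod_cast h2
  have h00 := hm 0 0
  have h01 := hm 0 1
  have h02 := hm 0 2
  have h10 := hm 1 0
  have h11 := hm 1 1
  have h12 := hm 1 2
  have h20 := hm 2 0
  have h21 := hm 2 1
  have h22 := hm 2 2
  simp only [mat, Matrix.of_apply, Matrix.cons_val', Matrix.cons_val_zero, Matrix.cons_val_one,
    Matrix.cons_val_fin_one, Matrix.cons_val] at h00 h01 h02 h10 h11 h12 h20 h21 h22
  have e1 : q 0 * q 1 = q' 0 * q' 1 := by linarith
  have e2 : q 0 * q 2 = q' 0 * q' 2 := by linarith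
  have e3 : q 0 * q 3 = q' 0 * q' 3 := by linarith
  have e4 : q 1 * q 2 = q' 1 * q' 2 := by linarith
  have p0 := hq 0
  have p1 := hq 1
  have p2 := hq 2
  have p0' := hq' 0
  have p1' := hq' 1
  have p2' := hq' 2
  -- q0^2 * (q1 q2) = (q0 q1)(q0 q2)
  have e5 : q 0 ^ 2 = q' 0 ^ 2 := by
    have a1 : q 0 ^ 2 * (q 1 * q 2) = q' 0 ^ 2 * (q 1 * q 2) := by
      calc q 0 ^ 2 * (q 1 * q 2) = (q 0 * q 1) * (q 0 * q 2) := by ring
        _ = (q' 0 * q' 1) * (q' 0 * q' 2) := by rw [e1, e2]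
        _ = q' 0 ^ 2 * (q' 1 * q' 2) := by ring
        _ = q' 0 ^ 2 * (q 1 * q 2) := by rw [e4]
    exact mul_right_cancel₀ (mul_pos p1 p2).ne' a1
  have e0 : q 0 = q' 0 := by
    exact (pow_left_inj₀ p0.le p0'.le (by norm_num : (2:ℕ) ≠ 0)).1 e5
  rw [← e0] at e1 e2 e3
  have f1 := mul_left_cancel₀ p0.ne' e1
  have f2 := mul_left_cancel₀ p0.ne' e2
  have f3 := mul_left_cancel₀ p0.ne' e3
  funext k
  fin_cases k
  · exact e0
  · exact f1
  · exact f2
  · exact f3

theorem tetra_of_affInd (p : Fin 4 → E3) (hp : AffineIndependent ℝ p) [DecidableEq E3] :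
    IsTetrahedron (univ.image p) := by
  refine ⟨?_, ?_⟩
  · rw [card_image_of_injective _ hp.injective]
    simp
  · intro hc
    have h3 : finrank ℝ (vectorSpan ℝ (Set.range p)) = 3 := hp.finrank_vectorSpan (by simp)
    have h2 := hc.finrank_le_two
    rw [coe_image, coe_univ, Set.image_univ] at h2
    omega

theorem mat_bound (q : Fin 4 → ℤ) (K : ℤ) (hq : ∀ k, 0 < q k ∧ q k ≤ K) (i j : Fin 3) :
    |mat q i j| ≤ 4 * K ^ 2 := by
  have hh : ∀ k l, 0 < q k * q l ∧ q k * q l ≤ K ^ 2 := by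
    intro k l
    refine ⟨mul_pos (hq k).1 (hq l).1, ?_⟩
    calc q k * q l ≤ K * K := mul_le_mul (hq k).2 (hq l).2 (hq l).1.le
          ((hq k).1.le.trans (hq k).2)
      _ = K ^ 2 := by ring
  have h00 := hh 0 0
  have h01 := hh 0 1
  have h02 := hh 0 2
  have h03 := hh 0 3
  have h11 := hh 1 1
  have h12 := hh 1 2
  have h13 := hh 1 3
  have h22 := hh 2 2
  have h23 := hh 2 3
  have h33 := hh 3 3
  rw [abs_le]
  fin_cases i <;> fin_cases j <;> simp [mat] <;> constructor <;> nlinarith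

theorem pt_bound (t : Fin 4 → Fin 3 → ℤ) (B K : ℤ) (hB : 0 ≤ B) (htB : ∀ i l, |t i l| ≤ B)
    (q : Fin 4 → ℤ) (hq : ∀ k, 0 < q k ∧ q k ≤ K) (i : Fin 4) (j : Fin 3) :
    |∑ l, mat q j l * t i l| ≤ 12 * B * K ^ 2 := by
  calc |∑ l, mat q j l * t i l| ≤ ∑ l, |mat q j l * t i l| := abs_sum_le_sum_abs _ _
    _ ≤ ∑ _l : Fin 3, 4 * K ^ 2 * B := by
        apply sum_le_sum
        intro l _
        rw [abs_mul]
        exact mul_le_mul (mat_bound q K hq j l) (htB i l) (abs_nonneg _) (by positivity)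
    _ = 12 * B * K ^ 2 := by
        simp only [sum_const, card_univ, Fintype.card_fin, nsmul_eq_mul]
        push_cast
        ring

theorem count (t : Fin 4 → Fin 3 → ℤ) (ht : AffineIndependent ℝ (fun i => emb (t i)))
    (B K : ℕ) (hB : 1 ≤ B) (hK : 1 ≤ K) (htB : ∀ i l, |t i l| ≤ B) (T : Finset E3)
    (hT : (T : Set E3) = Set.range (fun i => emb (t i))) (n : ℕ)
    (hn : (48 * B * K ^ 2) ^ 3 ≤ n) :
    ∃ P : Finset E3, P.card = n ∧ (12 * B * K ^ 2) ^ 3 * K ^ 4 ≤ 256 * copies P T := by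
  classical
  set H : ℤ := 12 * (B : ℤ) * (K : ℤ) ^ 2 with hH
  have hH0 : 1 ≤ H := by
    have h1 : (1 : ℤ) ≤ (B : ℤ) := by exact_mod_cast hB
    have h2 : (1 : ℤ) ≤ (K : ℤ) ^ 2 := by
      have : (1 : ℤ) ≤ (K : ℤ) := by exact_mod_cast hK
      nlinarith
    nlinarith
  have hHn : H.toNat = 12 * B * K ^ 2 := by
    have : H = ((12 * B * K ^ 2 : ℕ) : ℤ) := by push_cast; rfl
    rw [this, Int.toNat_natCast]
  let P0 : Finset E3 := (Fintype.piFinset (fun _ : Fin 3 => Icc (0 : ℤ) (3 * H))).image emb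
  have hP0 : P0.card ≤ n := by
    refine le_trans ?_ hn
    refine card_image_le.trans ?_
    rw [Fintype.card_piFinset]
    simp only [Int.card_Icc, prod_const, card_univ, Fintype.card_fin]
    apply Nat.pow_le_pow_left
    have : (3 * H + 1 - 0).toNat ≤ (4 * H).toNat := Int.toNat_le_toNat (by linarith)
    refine this.trans ?_
    have h4 : (4 * H).toNat = 48 * B * K ^ 2 := by
      have : 4 * H = ((48 * B * K ^ 2 : ℕ) : ℤ) := by push_cast; ring
      rw [this, Int.toNat_natCast]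
    exact h4.le
  have : Infinite E3 := inferInstance
  obtain ⟨P, hsub, hcard⟩ := Infinite.exists_superset_card_eq P0 n hP0
  refine ⟨P, hcard, ?_⟩
  let idx : Finset ((Fin 3 → ℤ) × (Fin 4 → ℤ)) :=
    (Fintype.piFinset (fun _ : Fin 3 => Ico H (2 * H))) ×ˢ
      (Fintype.piFinset (fun _ : Fin 4 => Icc (1 : ℤ) (K : ℤ)))
  let F : (Fin 3 → ℤ) × (Fin 4 → ℤ) → Finset E3 :=
    fun z => univ.image (fun i => emb (pt t z.1 z.2 i))
  have hmem : ∀ z ∈ idx, (∀ j, H ≤ z.1 j ∧ z.1 j < 2 * H) ∧ (∀ k, 0 < z.2 k ∧ z.2 k ≤ K) := by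
    intro z hz
    rw [mem_product, Fintype.mem_piFinset, Fintype.mem_piFinset] at hz
    refine ⟨fun j => mem_Ico.1 (hz.1 j), fun k => ?_⟩
    have := mem_Icc.1 (hz.2 k)
    exact ⟨by linarith [this.1], this.2⟩
  have hidx : idx.card = (12 * B * K ^ 2) ^ 3 * K ^ 4 := by
    rw [card_product, Fintype.card_piFinset, Fintype.card_piFinset]
    simp only [Int.card_Ico, Int.card_Icc, prod_const, card_univ, Fintype.card_fin]
    congr 2
    · have : 2 * H - H = H := by ring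
      rw [this, hHn]
    · simp
  have hfib : ∀ S ∈ idx.image F, #{z ∈ idx | F z = S} ≤ 256 := by
    intro S hS
    obtain ⟨z0, hz0, rfl⟩ := mem_image.1 hS
    have hS4 : (F z0).card ≤ 4 := card_image_le.trans (by simp)
    have hle : #{z ∈ idx | F z = F z0} ≤ (Fintype.piFinset (fun _ : Fin 4 => F z0)).card := by
      apply card_le_card_of_injOn (fun z => fun i => emb (pt t z.1 z.2 i))
      · intro z hz
        rw [mem_coe, Fintype.mem_piFinset]
        intro i
        have h2 : F z = F z0 := (mem_filter.1 hz).2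
        rw [← h2]
        exact mem_image_of_mem _ (mem_univ i)
      · intro z hz z' hz' h
        have h1 := hmem z (mem_filter.1 hz).1
        have h1' := hmem z' (mem_filter.1 hz').1
        have h2 : pt t z.1 z.2 = pt t z'.1 z'.2 := by
          funext i
          exact emb_inj (congrFun h i)
        have h3 := pt_inj t ht z.1 z'.1 z.2 z'.2 (fun k => (h1.2 k).1) (fun k => (h1'.2 k).1) h2
        exact Prod.ext h3.1 h3.2
    refine hle.trans ?_
    rw [Fintype.card_piFinset]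
    simp only [prod_const, card_univ, Fintype.card_fin]
    calc (F z0).card ^ 4 ≤ 4 ^ 4 := Nat.pow_le_pow_left hS4 4
      _ = 256 := by norm_num
  have h1 : idx.card ≤ 256 * (idx.image F).card := card_le_mul_card_image idx 256 hfib
  have h2 : (idx.image F).card ≤ copies P T := by
    rw [copies, ← Set.ncard_coe_finset]
    apply Set.ncard_le_ncard _ (finite_copies P T)
    intro Q hQ
    rw [mem_coe, mem_image] at hQ
    obtain ⟨z, hz, rfl⟩ := hQ
    obtain ⟨hx, hq⟩ := hmem z hz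
    have hN : 0 < ∑ k, (z.2 k : ℝ) ^ 2 := by
      apply sum_pos
      · intro k _
        have : (0 : ℝ) < (z.2 k : ℝ) := by exact_mod_cast (hq k).1
        positivity
      · exact univ_nonempty
    have haff : (fun i => emb (pt t z.1 z.2 i)) = (aff z.1 z.2) ∘ (fun i => emb (t i)) := by
      funext i
      exact (aff_emb t z.1 z.2 i).symm
    refine ⟨?_, ?_, ?_⟩
    · refine Subset.trans ?_ hsub
      intro y hy
      obtain ⟨i, -, rfl⟩ := mem_image.1 hy
      apply mem_image_of_mem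
      rw [Fintype.mem_piFinset]
      intro j
      have hb := abs_le.1 (pt_bound t B K (by positivity) htB z.2 hq i j)
      rw [mem_Icc]
      have := hx j
      simp only [pt]
      rw [← hH] at hb
      constructor <;> linarith [hb.1, hb.2, this.1, this.2]
    · apply tetra_of_affInd
      rw [haff]
      exact ht.map' (aff z.1 z.2) (aff_injective z.1 z.2 hN)
    · obtain ⟨g, hg⟩ := aff_sim z.1 z.2 hN
      refine ⟨g, _, hN, ?_⟩
      have : (fun y => (∑ k, (z.2 k : ℝ) ^ 2) • g y) = aff z.1 z.2 := by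
        funext y
        exact (hg y).symm
      rw [this, hT, ← Set.range_comp, ← haff]
      simp [F]
  calc (12 * B * K ^ 2) ^ 3 * K ^ 4 = idx.card := hidx.symm
    _ ≤ 256 * (idx.image F).card := h1
    _ ≤ 256 * copies P T := Nat.mul_le_mul_left _ h2

theorem growth (t : Fin 4 → Fin 3 → ℤ) (ht : AffineIndependent ℝ (fun i => emb (t i)))
    (T : Finset E3) (hT : (T : Set E3) = Set.range (fun i => emb (t i))) :
    ∃ c : ℝ, 0 < c ∧ ∃ n0 : ℕ, ∀ n ≥ n0, ∃ P : Finset E3, P.card = n ∧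
      c * (n : ℝ) ^ ((5 : ℝ) / 3) ≤ copies P T := by
  obtain ⟨B, hB1, hB⟩ : ∃ B : ℕ, 1 ≤ B ∧ ∀ i l, |t i l| ≤ (B : ℤ) := by
    refine ⟨1 + ∑ i, ∑ l, (t i l).natAbs, by omega, ?_⟩
    intro i l
    have h1 : (t i l).natAbs ≤ ∑ l, (t i l).natAbs :=
      single_le_sum (f := fun l => (t i l).natAbs) (fun _ _ => Nat.zero_le _) (mem_univ l)
    have h2 : ∑ l, (t i l).natAbs ≤ ∑ i, ∑ l, (t i l).natAbs :=
      single_le_sum (f := fun i => ∑ l, (t i l).natAbs) (fun _ _ => Nat.zero_le _) (mem_univ i)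
    have h3 : ((t i l).natAbs : ℤ) ≤ ((1 + ∑ i, ∑ l, (t i l).natAbs : ℕ) : ℤ) := by
      exact_mod_cast (h1.trans h2).trans (by omega)
    rw [Int.natCast_natAbs] at h3
    exact h3
  set C : ℝ := (48 * (B : ℝ)) ^ 3 with hC
  have hBr : (1 : ℝ) ≤ (B : ℝ) := by exact_mod_cast hB1
  have hC0 : 0 < C := by positivity
  refine ⟨(12 * (B : ℝ)) ^ 3 / (256 * (C ^ ((5 : ℝ) / 3) * 2 ^ 10)), by positivity,
    (48 * B) ^ 3, ?_⟩
  intro n hn
  have hnC : C ≤ n := by
    rw [hC]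
    exact_mod_cast hn
  set y : ℝ := ((n : ℝ) / C) ^ ((1 : ℝ) / 6) with hy
  have hnC1 : 1 ≤ (n : ℝ) / C := by rwa [le_div_iff₀ hC0, one_mul]
  have hy1 : 1 ≤ y := Real.one_le_rpow hnC1 (by norm_num)
  have hy6 : y ^ 6 = (n : ℝ) / C := by
    rw [hy, ← Real.rpow_natCast, ← Real.rpow_mul (by positivity)]
    norm_num
  have hn6 : (n : ℝ) = C * y ^ 6 := by
    rw [hy6]
    field_simp
  set K : ℕ := ⌊y⌋₊ with hK
  have hK1 : 1 ≤ K := Nat.le_floor (by simpa using hy1)
  have hKy : (K : ℝ) ≤ y := Nat.floor_le (by linarith)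
  have hyK : y ≤ 2 * K := by
    have h1 : y < K + 1 := Nat.lt_floor_add_one y
    have h2 : (1 : ℝ) ≤ K := by exact_mod_cast hK1
    linarith
  have hKn : (48 * B * K ^ 2) ^ 3 ≤ n := by
    have : ((48 * B * K ^ 2 : ℕ) : ℝ) ^ 3 ≤ n := by
      rw [hn6, hC]
      push_cast
      calc (48 * (B : ℝ) * (K : ℝ) ^ 2) ^ 3 = (48 * (B : ℝ)) ^ 3 * (K : ℝ) ^ 6 := by ring
        _ ≤ (48 * (B : ℝ)) ^ 3 * y ^ 6 := by gcongr
    exact_mod_cast this
  obtain ⟨P, hP, hcount⟩ := count t ht B K hB1 hK1 hB T hT n hKn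
  refine ⟨P, hP, ?_⟩
  have hcount' : (12 * (B : ℝ)) ^ 3 * (K : ℝ) ^ 10 ≤ 256 * (copies P T : ℝ) := by
    have : (((12 * B * K ^ 2) ^ 3 * K ^ 4 : ℕ) : ℝ) ≤ ((256 * copies P T : ℕ) : ℝ) := by
      exact_mod_cast hcount
    push_cast at this
    calc (12 * (B : ℝ)) ^ 3 * (K : ℝ) ^ 10 = (12 * (B : ℝ) * (K : ℝ) ^ 2) ^ 3 * (K : ℝ) ^ 4 := by
          ring
      _ ≤ _ := this
  have hpow : (n : ℝ) ^ ((5 : ℝ) / 3) = C ^ ((5 : ℝ) / 3) * y ^ 10 := by
    have hy0 : 0 ≤ y := by linarith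
    rw [hn6, Real.mul_rpow hC0.le (by positivity)]
    congr 1
    rw [← Real.rpow_natCast y 6, ← Real.rpow_mul hy0, ← Real.rpow_natCast y 10]
    norm_num
  rw [hpow]
  have hKy10 : y ^ 10 ≤ 2 ^ 10 * (K : ℝ) ^ 10 := by
    rw [← mul_pow]
    exact pow_le_pow_left₀ (by linarith) hyK 10
  have hCr : 0 < C ^ ((5 : ℝ) / 3) := by positivity
  calc (12 * (B : ℝ)) ^ 3 / (256 * (C ^ ((5 : ℝ) / 3) * 2 ^ 10)) *
        (C ^ ((5 : ℝ) / 3) * y ^ 10)
      ≤ (12 * (B : ℝ)) ^ 3 / (256 * (C ^ ((5 : ℝ) / 3) * 2 ^ 10)) *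
        (C ^ ((5 : ℝ) / 3) * (2 ^ 10 * (K : ℝ) ^ 10)) := by gcongr
    _ = (12 * (B : ℝ)) ^ 3 * (K : ℝ) ^ 10 / 256 := by field_simp
    _ ≤ copies P T := by
        rw [div_le_iff₀ (by norm_num)]
        linarith

theorem growth' (T : Finset E3) (hT : IsTetrahedron T)
    (hint : ∀ y ∈ T, ∀ j, ∃ z : ℤ, y j = z) :
    ∃ c : ℝ, 0 < c ∧ ∃ n0 : ℕ, ∀ n ≥ n0, ∃ P : Finset E3, P.card = n ∧
      c * (n : ℝ) ^ ((5 : ℝ) / 3) ≤ copies P T := by
  let e := T.equivFinOfCardEq hT.1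
  let p : Fin 4 → E3 := fun i => ((e.symm i : T) : E3)
  have hpr : Set.range p = (T : Set E3) := by
    ext y
    constructor
    · rintro ⟨i, rfl⟩
      exact (e.symm i).2
    · intro hy
      refine ⟨e ⟨y, hy⟩, ?_⟩
      simp [p]
  have hint' : ∀ i j, ∃ z : ℤ, p i j = z := fun i j => hint (p i) (e.symm i).2 j
  choose t ht using hint'
  have hpt : p = fun i => emb (t i) := by
    funext i
    ext j
    exact ht i j
  have haff : AffineIndependent ℝ p := by
    rw [affineIndependent_iff_finrank_vectorSpan_eq ℝ p (n := 3) (by simp)]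
    apply le_antisymm
    · exact finrank_vectorSpan_range_le ℝ p (by simp)
    · by_contra hlt
      apply hT.2
      rw [coplanar_iff_finrank_le_two, ← hpr]
      omega
  rw [hpt] at haff hpr
  exact growth t haff T hpr.symm

theorem exists_integer_tetra : ∃ T : Finset E3, IsTetrahedron T ∧
    ∀ y ∈ T, ∀ j, ∃ z : ℤ, y j = z := by
  classical
  let t : Fin 4 → Fin 3 → ℤ := Fin.cons 0 (fun i => Pi.single i 1)
  let p : Fin 4 → E3 := fun i => emb (t i)
  have hp : AffineIndependent ℝ p := by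
    rw [affineIndependent_iff_finrank_vectorSpan_eq ℝ p (n := 3) (by simp)]
    have htop : vectorSpan ℝ (Set.range p) = ⊤ := by
      rw [eq_top_iff, ← (EuclideanSpace.basisFun (Fin 3) ℝ).toBasis.span_eq, Submodule.span_le]
      rintro _ ⟨i, rfl⟩
      have h1 : (EuclideanSpace.basisFun (Fin 3) ℝ).toBasis i = p i.succ -ᵥ p 0 := by
        ext j
        simp [p, t, emb, Pi.single_apply]
      rw [h1]
      exact vsub_mem_vectorSpan ℝ (Set.mem_range_self _) (Set.mem_range_self _)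
    rw [htop]
    simp
  refine ⟨univ.image p, tetra_of_affInd p hp, ?_⟩
  intro y hy j
  obtain ⟨i, -, rfl⟩ := mem_image.1 hy
  exact ⟨t i j, rfl⟩

/-- Lower bound `f(n) ≥ c n^{5/3}`; moreover every tetrahedron with integer vertices has at
least `c_T n^{5/3}` similar copies in suitable `n`-point sets. -/
theorem result :
    (∀ T : Finset (EuclideanSpace ℝ (Fin 3)), IsTetrahedron T →
      (∀ y ∈ T, ∀ j, ∃ z : ℤ, y j = z) →
      ∃ c : ℝ, 0 < c ∧ ∃ n0 : ℕ, ∀ n ≥ n0, ∃ P : Finset (EuclideanSpace ℝ (Fin 3)),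
        P.card = n ∧ c * (n : ℝ) ^ ((5 : ℝ) / 3) ≤ copies P T) ∧
    (∃ c : ℝ, 0 < c ∧ ∃ n0 : ℕ, ∀ n ≥ n0, c * (n : ℝ) ^ ((5 : ℝ) / 3) ≤ f n) ∧
    (∀ P T : Finset (EuclideanSpace ℝ (Fin 3)), IsTetrahedron T → copies P T ≤ f P.card) := by
  refine ⟨growth', ?_, ?_⟩
  · obtain ⟨T, hT, hint⟩ := exists_integer_tetra
    obtain ⟨c, hc, n0, h⟩ := growth' T hT hint
    refine ⟨c, hc, n0, fun n hn => ?_⟩
    obtain ⟨P, hP, hcop⟩ := h n hn
    refine hcop.trans ?_
    have : copies P T ≤ f n := le_csSup (bdd n) ⟨P, T, hP, hT, rfl⟩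
    exact_mod_cast this
  · intro P T hT
    exact le_csSup (bdd P.card) ⟨P, T, rfl, hT, rfl⟩

end Pool.Agent.Results.MP_36f34d_co.FiveThirds
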